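import Pool.Agent.VHM.Fam
import Pool.Agent.VHG.Pres

/-!
# VHM/Enc : coding of a tile set by a list of quadruples of numbers, and the transfer (MP_720b7c_al)
-/

set_option autoImplicit false

namespace Pool.Agent.VHM

open Pool.Agent.VHS (Mach)
open Pool.Agent.VHG (tilesOf)

/-- the list `l` of quadruples codes the tile set `S` -/
structure Enc (l : List (ℕ × ℕ × ℕ × ℕ)) {T V H : Type} (S : VHG.Tiles T V H) where
  φ : Fin l.length ≃ T
  RL : ∀ i j, (tilesOf l).R i = (tilesOf l).L j ↔ S.R (φ i) = S.L (φ j)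
  RR : ∀ i j, (tilesOf l).R i = (tilesOf l).R j ↔ S.R (φ i) = S.R (φ j)
  LL : ∀ i j, (tilesOf l).L i = (tilesOf l).L j ↔ S.L (φ i) = S.L (φ j)
  UB : ∀ i j, (tilesOf l).U i = (tilesOf l).B j ↔ S.U (φ i) = S.B (φ j)
  UU : ∀ i j, (tilesOf l).U i = (tilesOf l).U j ↔ S.U (φ i) = S.U (φ j)
  BB : ∀ i j, (tilesOf l).B i = (tilesOf l).B j ↔ S.B (φ i) = S.B (φ j)

variable {l : List (ℕ × ℕ × ℕ × ℕ)} {T V H : Type} {S : VHG.Tiles T V H}

theorem Enc.det (e : Enc l S) (h : S.Det) : (tilesOf l).Det where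
  LB i j h1 h2 := e.φ.injective (h.LB _ _ ((e.LL i j).1 h1) ((e.BB i j).1 h2))
  LU i j h1 h2 := e.φ.injective (h.LU _ _ ((e.LL i j).1 h1) ((e.UU i j).1 h2))
  RB i j h1 h2 := e.φ.injective (h.RB _ _ ((e.RR i j).1 h1) ((e.BB i j).1 h2))
  RU i j h1 h2 := e.φ.injective (h.RU _ _ ((e.RR i j).1 h1) ((e.UU i j).1 h2))

theorem Enc.patches (e : Enc l S) (h : ∀ n, VHD.HasPatch S n) : VHG.HasPatches (tilesOf l) := by
  intro n
  obtain ⟨F, h1, h2⟩ := h n
  refine ⟨fun i j => e.φ.symm (F i j), fun i j hi hj => ?_, fun i j hi hj => ?_⟩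
  · rw [e.RL]; simpa using h1 i j hi hj
  · rw [e.UB]; simpa using h2 i j hi hj

theorem Enc.rt_lt (e : Enc l S) (a b : Bool) (i j : Fin l.length) :
    (tilesOf l).rt a i = (tilesOf l).lt b j ↔ S.rt a (e.φ i) = S.lt b (e.φ j) := by
  cases a <;> cases b <;>
    simp only [VHG.Tiles.rt, VHG.Tiles.lt, Bool.false_eq_true, if_true,
      if_false]
  · rw [eq_comm, e.RL, eq_comm]
  · exact e.LL i j
  · exact e.RR i j
  · exact e.RL i j

theorem Enc.up_dn (e : Enc l S) (a b : Bool) (i j : Fin l.length) :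
    (tilesOf l).up a i = (tilesOf l).dn b j ↔ S.up a (e.φ i) = S.dn b (e.φ j) := by
  cases a <;> cases b <;>
    simp only [VHG.Tiles.up, VHG.Tiles.dn, Bool.false_eq_true, if_true,
      if_false]
  · rw [eq_comm, e.UB, eq_comm]
  · exact e.BB i j
  · exact e.UU i j
  · exact e.UB i j

theorem Enc.noFolded (e : Enc l S) {m : ℤ} (h : VHD.NoFolded S m) :
    ¬ ∃ F ex ey, VHG.IsFolded (tilesOf l) F ex ey := by
  rintro ⟨F, ex, ey, hF⟩
  refine h (fun i j => e.φ (F i j)) ex ey ⟨?_, ?_, ?_, ?_⟩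
  · intro i j _ _ _ _
    exact (e.rt_lt _ _ _ _).1 (hF.h i j)
  · intro i j _ _ _ _
    exact (e.up_dn _ _ _ _).1 (hF.v i j)
  · intro i j _ _ _ _ hx hh
    exact hF.hf i j hx (e.φ.injective hh)
  · intro i j _ _ _ _ hx hh
    exact hF.vf i j hx (e.φ.injective hh)

/-- the whole reduction, with the remaining parts as hypotheses -/
theorem final (K : VHS.Skel) (F : Fam)
    (hdet : ∀ M : Mach, (VHS.S K M 0).Det)
    (hyes : ∀ M : Mach, (∀ t, M.alive t) → ∀ n, VHD.HasPatch (VHS.S K M 0) n)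
    (hno : ∀ M : Mach, (¬ ∀ t, M.alive t) → ∃ m : ℤ, VHD.NoFolded (VHS.S K M 0) m)
    (G : ℕ → List (ℕ × ℕ × ℕ × ℕ)) (hG : Computable G)
    (hE : ∀ n, Nonempty (Enc (G n) (VHS.S K (F.mach n) 0))) :
    ¬ ∃ f : VHG.PresData →. Bool, Partrec f ∧ VHG.DecidesHyp f := by
  refine VHG.no_algorithm_of (K := fun n => ∀ t, F.alive n t) F.not_comp G hG ?_ ?_ ?_
  · intro n
    obtain ⟨e⟩ := hE n
    exact e.det (hdet _)
  · intro n h
    obtain ⟨e⟩ := hE n
    exact e.patches (hyes _ h)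
  · intro n h
    obtain ⟨e⟩ := hE n
    obtain ⟨m, hm⟩ := hno (F.mach n) h
    exact e.noFolded hm

end Pool.Agent.VHM
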