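import Pool.Agent.VHS.Defs

/-!
# VHM/Fam : computable families of machines, coded by numbers (interface of W3, MP_720b7c_al)

`Fam` : for every input `n` an array machine (`VHS.Mach`) with symbols `Fin (size n)`; everything is given
by numbers and computable in `n`; the set of the inputs `n` whose machine runs for ever is not computable.
* helper17, helper95: construct `theFam : Fam`.
* helper26 (VHC): for a fixed `K : Skel` and `F : Fam` a computable `G : ℕ → List (ℕ × ℕ × ℕ × ℕ)` such that
  `tilesOf (G n)` is isomorphic to `VHS.S K (F.mach n) 0`.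
-/

set_option autoImplicit false

namespace Pool.Agent.VHM

open Pool.Agent.VHS (Mach)

/-- a computable family of array machines -/
structure Fam where
  /-- number of symbols -/
  size : ℕ → ℕ
  dfl : ℕ → ℕ
  bd : ℕ → ℕ
  /-- rules: first argument is the input `n` -/
  H : ℕ → ℕ → ℕ → Bool
  V : ℕ → ℕ → ℕ → Bool
  D : ℕ → ℕ → Bool
  /-- the array `I n r t` -/
  I : ℕ → ℕ → ℕ → ℕ
  alive : ℕ → ℕ → Prop
  size_c : Computable size
  dfl_c : Computable dfl
  bd_c : Computable bd
  H_c : Computable fun x : ℕ × ℕ × ℕ => H x.1 x.2.1 x.2.2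
  V_c : Computable fun x : ℕ × ℕ × ℕ => V x.1 x.2.1 x.2.2
  D_c : Computable fun x : ℕ × ℕ => D x.1 x.2
  dfl_lt : ∀ n, dfl n < size n
  bd_lt : ∀ n, bd n < size n
  I_lt : ∀ n r t, I n r t < size n
  alive_one : ∀ n, alive n 1
  alive_mono : ∀ n t, alive n (t + 1) → alive n t
  I_zero : ∀ n t, 0 < t → alive n t → I n 0 t = bd n
  I_H : ∀ n r t, r + 1 < t → alive n t → H n (I n r t) (I n (r + 1) t) = true
  I_V : ∀ n r t, r < t → alive n (t + 1) → V n (I n r t) (I n r (t + 1)) = true
  I_D : ∀ n t, alive n (t + 1) → D n (I n t (t + 1)) = true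
  uniq : ∀ n t, 0 < t → alive n t → ∀ f : ℕ → ℕ, (∀ r, f r < size n) → f 0 = bd n →
    (∀ r, r < t → V n (I n r t) (f r) = true) → (∀ r, r < t → H n (f r) (f (r + 1)) = true) →
    D n (f t) = true → alive n (t + 1) ∧ ∀ r, r ≤ t → f r = I n r (t + 1)
  /-- undecidability -/
  not_comp : ¬ ComputablePred fun n => ∀ t, alive n t

/-- the machine of the input `n` -/
def Fam.mach (F : Fam) (n : ℕ) : Mach where
  A := Fin (F.size n)
  finA := inferInstance
  dfl := ⟨F.dfl n, F.dfl_lt n⟩
  bd := ⟨F.bd n, F.bd_lt n⟩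
  H a b := F.H n a b = true
  V a b := F.V n a b = true
  D a := F.D n a = true
  I r t := ⟨F.I n r t, F.I_lt n r t⟩
  alive := F.alive n
  alive_one := F.alive_one n
  alive_mono := F.alive_mono n
  I_zero t ht h := Fin.ext (F.I_zero n t ht h)
  I_H := F.I_H n
  I_V := F.I_V n
  I_D := F.I_D n
  uniq t ht h f h0 hV hH hD := by
    have := F.uniq n t ht h (fun r => (f r).val) (fun r => (f r).isLt) (congrArg Fin.val h0) hV hH hD
    exact ⟨this.1, fun r hr => Fin.ext (this.2 r hr)⟩

end Pool.Agent.VHM
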