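import Pool.Agent.VHM.Arr

/-!
# VHM/Num : computability of the array machines of a row machine (helper48, MP_720b7c_al, W3)
-/

set_option autoImplicit false
set_option linter.unusedSectionVars false

namespace Pool.Agent.VHM.RowM

variable {C : Type} [Fintype C] [DecidableEq C]

/-! ### computability -/

section comp

variable [Primcodable C] (R : RowM C)

theorem stt_primrec (C : Type) [Fintype C] [DecidableEq C] : Primrec (stt C) :=
  Primrec.nat_div.comp (Primrec.nat_sub.comp Primrec.id (Primrec.const 1)) (Primrec.const (NN C))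

omit [DecidableEq C] in
theorem win_primrec : Primrec R.win := by
  unfold win
  refine (Primrec.dom_finite (ew C).symm).comp ?_
  rw [← Primrec.fin_val_iff]
  exact Primrec.nat_mod.comp (Primrec.nat_sub.comp Primrec.id (Primrec.const 1))
    (Primrec.const (NN C))

/-- Boolean functions: conjunction -/
theorem cand {α : Type} [Primcodable α] {f g : α → Bool} (hf : Computable f) (hg : Computable g) :
    Computable fun a => f a && g a :=
  Primrec.and.to_comp.comp hf hg

theorem cor {α : Type} [Primcodable α] {f g : α → Bool} (hf : Computable f) (hg : Computable g) :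
    Computable fun a => f a || g a :=
  Primrec.or.to_comp.comp hf hg

theorem cnot {α : Type} [Primcodable α] {f : α → Bool} (hf : Computable f) :
    Computable fun a => !(f a) :=
  Primrec.not.to_comp.comp hf

theorem cbeq {α β : Type} [Primcodable α] [Primcodable β] [BEq β] [LawfulBEq β] {f g : α → β}
    (hf : Computable f) (hg : Computable g) : Computable fun a => (f a == g a) := by
  classical
  have h : Primrec₂ fun a b : β => decide (a = b) := Primrec.eq.decide
  refine (h.to_comp.comp hf hg).of_eq fun a => ?_
  rw [Bool.eq_iff_iff]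
  simp

theorem cite {α β : Type} [Primcodable α] [Primcodable β] {c : α → ℕ} {f g : α → β}
    (hc : Computable c) (hf : Computable f) (hg : Computable g) :
    Computable fun a => if c a = 0 then f a else g a := by
  have h := Computable.cond (cbeq hc (Computable.const 0)) hf hg
  refine h.of_eq fun a => ?_
  by_cases h0 : c a = 0
  · simp [h0]
  · have : (c a == 0) = false := by simpa using h0
    rw [this, if_neg h0]
    rfl

variable {α : Type} [Primcodable α]

theorem w1 {f : α → ℕ} (hf : Computable f) : Computable fun a => (R.win (f a)).1 :=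
  (Primrec.fst.comp (win_primrec R)).to_comp.comp hf

theorem w2 {f : α → ℕ} (hf : Computable f) : Computable fun a => (R.win (f a)).2.1 :=
  (Primrec.fst.comp (Primrec.snd.comp (win_primrec R))).to_comp.comp hf

theorem w3 {f : α → ℕ} (hf : Computable f) : Computable fun a => (R.win (f a)).2.2 :=
  (Primrec.snd.comp (Primrec.snd.comp (win_primrec R))).to_comp.comp hf

omit [Primcodable C] in
theorem st {f : α → ℕ} (hf : Computable f) : Computable fun a => stt C (f a) :=
  (stt_primrec C).to_comp.comp hf

theorem rH_c : Computable fun x : ℕ × ℕ × ℕ => R.rH x.2.1 x.2.2 := by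
  have ha : Computable fun x : ℕ × ℕ × ℕ => x.2.1 := Computable.fst.comp Computable.snd
  have hb : Computable fun x : ℕ × ℕ × ℕ => x.2.2 := Computable.snd.comp Computable.snd
  unfold rH
  refine cand (cnot (cbeq hb (Computable.const 0))) (cite ha (cbeq (w1 R hb) (Computable.const none)) ?_)
  exact cand (cand (cbeq (st ha) (st hb)) (cbeq (w1 R hb) (Computable.option_some.comp (w2 R ha))))
    (cbeq (w3 R ha) (w2 R hb))

theorem rV_c (hnq : Computable fun x : ℕ × ℕ × C => R.nq x.1 x.2.1 x.2.2)
    (hsh : Computable fun x : ℕ × ℕ × (Option C × C × C) => R.sh x.1 x.2.1 x.2.2.1 x.2.2.2.1 x.2.2.2.2) :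
    Computable fun x : ℕ × ℕ × ℕ => R.rV x.1 x.2.1 x.2.2 := by
  have hn : Computable fun x : ℕ × ℕ × ℕ => x.1 := Computable.fst
  have ha : Computable fun x : ℕ × ℕ × ℕ => x.2.1 := Computable.fst.comp Computable.snd
  have hb : Computable fun x : ℕ × ℕ × ℕ => x.2.2 := Computable.snd.comp Computable.snd
  have e1 : Computable fun x : ℕ × ℕ × ℕ => (x.1, stt C x.2.1, R.win x.2.1) :=
    hn.pair ((st ha).pair ((win_primrec R).to_comp.comp ha))
  have e2 : Computable fun x : ℕ × ℕ × ℕ => (x.1, stt C x.2.1, (R.win x.2.1).2.1) :=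
    hn.pair ((st ha).pair (w2 R ha))
  have h1 : Computable fun x : ℕ × ℕ × ℕ =>
      R.sh x.1 (stt C x.2.1) (R.win x.2.1).1 (R.win x.2.1).2.1 (R.win x.2.1).2.2 :=
    (hsh.comp e1).of_eq fun _ => rfl
  have h2 : Computable fun x : ℕ × ℕ × ℕ => R.nq x.1 (stt C x.2.1) (R.win x.2.1).2.1 :=
    (hnq.comp e2).of_eq fun _ => rfl
  have h3 : Computable fun x : ℕ × ℕ × ℕ => some (stt C x.2.2) := Computable.option_some.comp (st hb)
  unfold rV
  exact cite ha (cbeq hb (Computable.const 0)) (cand (cand (cnot (cbeq hb (Computable.const 0)))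
    (cbeq (w2 R hb) h1)) (cor (cnot (cbeq (w1 R ha) (Computable.const none))) (cbeq h2 h3)))

theorem rD_c (hq0 : Computable R.q0) : Computable fun x : ℕ × ℕ => R.rD x.1 x.2 := by
  have hn : Computable fun x : ℕ × ℕ => x.1 := Computable.fst
  have ha : Computable fun x : ℕ × ℕ => x.2 := Computable.snd
  unfold rD
  refine cor (cbeq ha (Computable.const 0)) (cand (cand (cbeq (w2 R ha) (Computable.const _))
    (cbeq (w3 R ha) (Computable.const _))) (cor (cnot (cbeq (w1 R ha) (Computable.const none)))
    (cbeq (st ha) (hq0.comp hn))))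

end comp

/-- the computable family of array machines of a row machine -/
noncomputable def fam [Primcodable C] (R : RowM C) (hq0 : Computable R.q0) (hb : Computable R.bound)
    (hnq : Computable fun x : ℕ × ℕ × C => R.nq x.1 x.2.1 x.2.2)
    (hsh : Computable fun x : ℕ × ℕ × (Option C × C × C) => R.sh x.1 x.2.1 x.2.2.1 x.2.2.2.1 x.2.2.2.2)
    (hund : ¬ ComputablePred fun n => ∀ k, (R.cfg n k).isSome = true) : Fam where
  size n := R.bound n * NN C + 1
  dfl _ := 0
  bd _ := 0
  H _ a b := R.rH a b
  V n a b := R.rV n a b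
  D n a := R.rD n a
  I n r t := R.arr n r t
  alive n t := R.alive n t
  size_c := Primrec.succ.to_comp.comp (Primrec.nat_mul.to_comp.comp hb (Computable.const (NN C)))
  dfl_c := Computable.const 0
  bd_c := Computable.const 0
  H_c := rH_c R
  V_c := rV_c R hnq hsh
  D_c := rD_c R hq0
  dfl_lt n := Nat.succ_pos _
  bd_lt n := Nat.succ_pos _
  I_lt n r t := R.arr_lt n r t
  alive_one n := Or.inl le_rfl
  alive_mono n t h := by
    rcases h with h | h
    · exact Or.inl (by omega)
    · by_cases ht : t ≤ 1
      · exact Or.inl ht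
      · right
        obtain ⟨k, rfl⟩ : ∃ k, t = k + 2 := ⟨t - 2, by omega⟩
        have e1 : k + 2 + 1 - 2 = k + 1 := by omega
        have e2 : k + 2 - 2 = k := by omega
        rw [e1] at h
        rw [e2]
        exact R.cfg_mono n k h
  I_zero n t _ _ := R.arr_zero n t
  I_H n r t h1 h2 := R.rH_arr n r t h1 h2
  I_V n r t h1 h2 := R.rV_arr n r t h1 h2
  I_D n t h := R.rD_arr n t h
  uniq n t ht h f _ f0 hV hH hD := R.uniq n t ht h f f0 hV hH hD
  not_comp h := by
    apply hund
    have e : (fun n => ∀ t, R.alive n t) = fun n => ∀ k, (R.cfg n k).isSome = true := by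
      funext n
      apply propext
      constructor
      · intro h k
        have := (h (k + 2)).resolve_left (by omega)
        simpa using this
      · intro h t
        exact Or.inr (h _)
    rw [← e]
    exact h

theorem fam_exists {C : Type} [Finite C] [Primcodable C] (R : RowM C) (hq0 : Computable R.q0)
    (hb : Computable R.bound) (hnq : Computable fun x : ℕ × ℕ × C => R.nq x.1 x.2.1 x.2.2)
    (hsh : Computable fun x : ℕ × ℕ × (Option C × C × C) => R.sh x.1 x.2.1 x.2.2.1 x.2.2.2.1 x.2.2.2.2)
    (hund : ¬ ComputablePred fun n => ∀ k, (R.cfg n k).isSome = true) : Nonempty Fam := by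
  classical
  have := Fintype.ofFinite C
  exact ⟨R.fam hq0 hb hnq hsh hund⟩

end Pool.Agent.VHM.RowM
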