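import Pool.Agent.VHM.Sim
import Pool.Agent.VHM.Num

/-!
# VHM/TheFam : a computable family of array machines whose immortality problem is not computable
(MP_720b7c_al, W3)
-/

set_option autoImplicit false

namespace Pool.Agent.VHM

theorem theFam : Nonempty Fam := by
  obtain ⟨c, R, h1, h2, h3, h4, h5⟩ := Sim.sim
  exact ⟨R.fam h1 h2 h3 h4 h5⟩

end Pool.Agent.VHM
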