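import Pool.Agent.VHM.Fam

/-!
# VHM/Arr : row machines give array machines (MP_720b7c_al, W3, helper10)

A row machine: a configuration is a state `q : ℕ` together with `w : ℕ → C` (`C` a finite alphabet with
blank `bl`).  One step: the next state is `nq n q (w 0)` (or halt), the contents change by a local rule
`sh` which also depends on the old state.  The triangular array: row `t` shows the configuration after
`t - 2` steps, cell `0` is the boundary symbol, cell `r ≥ 1` shows the state and the contents of the cells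
`r - 2`, `r - 1`, `r` of `w`.
-/

set_option autoImplicit false

namespace Pool.Agent.VHM

/-- row machines with contents `C` -/
structure RowM (C : Type) where
  bl : C
  q0 : ℕ → ℕ
  bound : ℕ → ℕ
  nq : ℕ → ℕ → C → Option ℕ
  sh : ℕ → ℕ → Option C → C → C → C
  q0_lt : ∀ n, q0 n < bound n
  nq_lt : ∀ n q c q', q < bound n → nq n q c = some q' → q' < bound n
  sh_bl : ∀ n q, sh n q (some bl) bl bl = bl

namespace RowM

variable {C : Type} (R : RowM C)

/-- next contents -/
def nw (n q : ℕ) (w : ℕ → C) : ℕ → C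
  | 0 => R.sh n q none (w 0) (w 1)
  | j + 1 => R.sh n q (some (w j)) (w (j + 1)) (w (j + 2))

/-- one step -/
def step (n : ℕ) (x : ℕ × (ℕ → C)) : Option (ℕ × (ℕ → C)) :=
  (R.nq n x.1 (x.2 0)).map fun q' => (q', R.nw n x.1 x.2)

/-- configuration after `k` steps -/
def cfg (n : ℕ) : ℕ → Option (ℕ × (ℕ → C))
  | 0 => some (R.q0 n, fun _ => R.bl)
  | k + 1 => (cfg n k).bind (R.step n)

/-- the row `t` exists -/
def alive (n t : ℕ) : Prop := t ≤ 1 ∨ (R.cfg n (t - 2)).isSome = true

theorem cfg_lt (n : ℕ) : ∀ k x, R.cfg n k = some x → x.1 < R.bound n := by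
  intro k
  induction k with
  | zero =>
    intro x h
    simp only [cfg, Option.some.injEq] at h
    rw [← h]
    exact R.q0_lt n
  | succ k ih =>
    intro x h
    simp only [cfg, Option.bind_eq_some_iff, step, Option.map_eq_some_iff] at h
    obtain ⟨y, h1, q', h2, h3⟩ := h
    rw [← h3]
    exact R.nq_lt _ _ _ _ (ih y h1) h2

theorem cfg_bl (n : ℕ) : ∀ k x, R.cfg n k = some x → ∀ j, k ≤ j → x.2 j = R.bl := by
  intro k
  induction k with
  | zero =>
    intro x h j _
    simp only [cfg, Option.some.injEq] at h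
    rw [← h]
  | succ k ih =>
    intro x h j hj
    simp only [cfg, Option.bind_eq_some_iff, step, Option.map_eq_some_iff] at h
    obtain ⟨y, h1, q', h2, h3⟩ := h
    rw [← h3]
    obtain ⟨i, rfl⟩ : ∃ i, j = i + 1 := ⟨j - 1, by omega⟩
    show R.sh n y.1 (some (y.2 i)) (y.2 (i + 1)) (y.2 (i + 2)) = R.bl
    rw [ih y h1 i (by omega), ih y h1 (i + 1) (by omega), ih y h1 (i + 2) (by omega)]
    exact R.sh_bl _ _

theorem cfg_mono (n k : ℕ) (h : (R.cfg n (k + 1)).isSome = true) : (R.cfg n k).isSome = true := by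
  cases hk : R.cfg n k with
  | none => simp [cfg, hk] at h
  | some x => rfl

/-! ## symbols -/

section
variable [Fintype C]

/-- number of windows -/
noncomputable def NN (C : Type) [Fintype C] : ℕ := Fintype.card (Option C × C × C)

/-- numbering of the windows -/
noncomputable def ew (C : Type) [Fintype C] : (Option C × C × C) ≃ Fin (NN C) := Fintype.equivFin _

include R in
theorem NN_pos : 0 < NN C := Fintype.card_pos_iff.2 ⟨(none, R.bl, R.bl)⟩

/-- code of a symbol -/
noncomputable def enc (q : ℕ) (x : Option C × C × C) : ℕ := q * NN C + (ew C x).val + 1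

/-- state of a code -/
noncomputable def stt (C : Type) [Fintype C] (a : ℕ) : ℕ := (a - 1) / NN C

/-- window of a code -/
noncomputable def win (a : ℕ) : Option C × C × C :=
  (ew C).symm ⟨(a - 1) % NN C, Nat.mod_lt _ R.NN_pos⟩

theorem enc_pos (q : ℕ) (x : Option C × C × C) : enc q x ≠ 0 := by unfold enc; omega

include R in
theorem stt_enc (q : ℕ) (x : Option C × C × C) : stt C (enc q x) = q := by
  unfold stt enc
  have h := (ew C x).isLt
  have hp := R.NN_pos
  rw [Nat.add_sub_cancel, Nat.add_comm, Nat.add_mul_div_right _ _ hp, Nat.div_eq_of_lt h]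
  omega

theorem win_enc (q : ℕ) (x : Option C × C × C) : R.win (enc q x) = x := by
  unfold win enc
  have h := (ew C x).isLt
  rw [Equiv.symm_apply_eq]
  ext
  simp only
  rw [Nat.add_sub_cancel, Nat.add_comm, Nat.add_mul_mod_self_right, Nat.mod_eq_of_lt h]

theorem enc_stt_win {a : ℕ} (h : a ≠ 0) : enc (stt C a) (R.win a) = a := by
  unfold enc stt win
  rw [Equiv.apply_symm_apply]
  have := Nat.div_add_mod (a - 1) (NN C)
  simp only
  rw [Nat.mul_comm]
  omega

theorem enc_lt {n q : ℕ} (h : q < R.bound n) (x : Option C × C × C) :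
    enc q x < R.bound n * NN C + 1 := by
  unfold enc
  have h1 := (ew C x).isLt
  have h2 : (q + 1) * NN C ≤ R.bound n * NN C := Nat.mul_le_mul_right _ h
  rw [Nat.add_mul] at h2
  omega

variable [DecidableEq C]

/-- rule inside a row -/
noncomputable def rH (a b : ℕ) : Bool :=
  (!(b == 0)) && (if a = 0 then (R.win b).1 == none else
    (stt C a == stt C b) && ((R.win b).1 == some (R.win a).2.1) && ((R.win a).2.2 == (R.win b).2.1))

/-- rule between rows -/
noncomputable def rV (n a b : ℕ) : Bool :=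
  if a = 0 then b == 0 else
    (!(b == 0)) && ((R.win b).2.1 == R.sh n (stt C a) (R.win a).1 (R.win a).2.1 (R.win a).2.2) &&
      (!((R.win a).1 == none) || (R.nq n (stt C a) (R.win a).2.1 == some (stt C b)))

/-- rule for the last symbol -/
noncomputable def rD (n a : ℕ) : Bool :=
  (a == 0) || (((R.win a).2.1 == R.bl) && ((R.win a).2.2 == R.bl) &&
    (!((R.win a).1 == none) || (stt C a == R.q0 n)))

/-- window at cell `r ≥ 1` -/
def wnd (w : ℕ → C) (r : ℕ) : Option C × C × C :=
  (if r = 1 then none else some (w (r - 2)), w (r - 1), w r)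

/-- the array -/
noncomputable def arr (n r t : ℕ) : ℕ :=
  if r = 0 then 0 else
    match R.cfg n (t - 2) with
    | none => 0
    | some x => enc x.1 (wnd x.2 r)

theorem arr_zero (n t : ℕ) : R.arr n 0 t = 0 := rfl

theorem arr_some {n r t : ℕ} (hr : r ≠ 0) {x : ℕ × (ℕ → C)} (h : R.cfg n (t - 2) = some x) :
    R.arr n r t = enc x.1 (wnd x.2 r) := by
  unfold arr
  rw [if_neg hr, h]

theorem arr_lt (n r t : ℕ) : R.arr n r t < R.bound n * NN C + 1 := by
  unfold arr
  split
  · omega
  · split
    · omega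
    · next x h => exact R.enc_lt (R.cfg_lt n _ _ h) _

theorem rH_arr (n r t : ℕ) (hr : r + 1 < t) (h : R.alive n t) :
    R.rH (R.arr n r t) (R.arr n (r + 1) t) = true := by
  have h2 : (R.cfg n (t - 2)).isSome = true := h.resolve_left (by omega)
  obtain ⟨x, hx⟩ := Option.isSome_iff_exists.1 h2
  rw [R.arr_some (by omega : r + 1 ≠ 0) hx]
  unfold rH
  rw [R.win_enc, stt_enc R]
  by_cases hr0 : r = 0
  · subst hr0
    rw [arr_zero]
    simp [enc_pos, wnd]
  · rw [R.arr_some hr0 hx, R.win_enc, stt_enc R, if_neg (enc_pos _ _)]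
    have h3 : r + 1 ≠ 1 := by omega
    have h4 : r + 1 - 2 = r - 1 := by omega
    simp [enc_pos, wnd, hr0, h4]

theorem rV_arr (n r t : ℕ) (hr : r < t) (h : R.alive n (t + 1)) :
    R.rV n (R.arr n r t) (R.arr n r (t + 1)) = true := by
  by_cases hr0 : r = 0
  · subst hr0
    simp [arr_zero, rV]
  · obtain ⟨k, rfl⟩ : ∃ k, t = k + 2 := ⟨t - 2, by omega⟩
    have h2 : (R.cfg n (k + 1)).isSome = true := by
      have := h.resolve_left (by omega)
      simpa using this
    obtain ⟨y, hy⟩ := Option.isSome_iff_exists.1 h2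
    have hy' := hy
    simp only [cfg, Option.bind_eq_some_iff, step, Option.map_eq_some_iff] at hy'
    obtain ⟨x, hx, q', h3, h4⟩ := hy'
    rw [R.arr_some hr0 (x := x) (by simpa using hx), R.arr_some hr0 (x := y) (by simpa using hy)]
    unfold rV
    rw [R.win_enc, R.win_enc, stt_enc R, stt_enc R, if_neg (enc_pos _ _)]
    subst h4
    by_cases hr1 : r = 1
    · subst hr1
      simp [enc_pos, wnd, h3, nw]
    · obtain ⟨j, rfl⟩ : ∃ j, r = j + 2 := ⟨r - 2, by omega⟩
      simp [enc_pos, wnd, nw]

theorem rD_arr (n t : ℕ) (h : R.alive n (t + 1)) : R.rD n (R.arr n t (t + 1)) = true := by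
  by_cases ht : t = 0
  · subst ht
    simp [arr_zero, rD]
  · obtain ⟨k, rfl⟩ : ∃ k, t = k + 1 := ⟨t - 1, by omega⟩
    have h2 : (R.cfg n k).isSome = true := by
      have := h.resolve_left (by omega)
      simpa using this
    obtain ⟨x, hx⟩ := Option.isSome_iff_exists.1 h2
    rw [R.arr_some ht (x := x) (by simpa using hx)]
    unfold rD
    rw [R.win_enc, stt_enc R]
    have e1 : x.2 k = R.bl := R.cfg_bl n k x hx k le_rfl
    have e2 : x.2 (k + 1) = R.bl := R.cfg_bl n k x hx (k + 1) (by omega)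
    by_cases hk : k = 0
    · subst hk
      simp only [cfg, Option.some.injEq] at hx
      subst hx
      simp [wnd]
    · simp [wnd, e1, e2, hk]

theorem rH_eq {a b : ℕ} (h : R.rH a b = true) : b ≠ 0 ∧
    (a = 0 → (R.win b).1 = none) ∧ (a ≠ 0 → stt C a = stt C b ∧ (R.win b).1 = some (R.win a).2.1 ∧
      (R.win a).2.2 = (R.win b).2.1) := by
  unfold rH at h
  rw [Bool.and_eq_true] at h
  refine ⟨by simpa using h.1, fun ha => ?_, fun ha => ?_⟩
  · have := h.2
    rw [if_pos ha] at this
    simpa using this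
  · have := h.2
    rw [if_neg ha] at this
    simp only [Bool.and_eq_true, beq_iff_eq] at this
    exact ⟨this.1.1, this.1.2, this.2⟩

theorem rD_eq {n a : ℕ} (h : R.rD n a = true) (ha : a ≠ 0) : (R.win a).2.1 = R.bl ∧
    (R.win a).2.2 = R.bl ∧ ((R.win a).1 = none → stt C a = R.q0 n) := by
  unfold rD at h
  simp only [Bool.or_eq_true, Bool.and_eq_true, beq_iff_eq, Bool.not_eq_true', beq_eq_false_iff_ne, ne_eq] at h
  rcases h with h | h
  · exact absurd h ha
  · exact ⟨h.1.1, h.1.2, fun h1 => h.2.resolve_left (fun h2 => h2 h1)⟩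

theorem rV_eq {n a b : ℕ} (h : R.rV n a b = true) (ha : a ≠ 0) :
    (R.win b).2.1 = R.sh n (stt C a) (R.win a).1 (R.win a).2.1 (R.win a).2.2 ∧
    ((R.win a).1 = none → R.nq n (stt C a) (R.win a).2.1 = some (stt C b)) := by
  unfold rV at h
  rw [if_neg ha] at h
  simp only [Bool.or_eq_true, Bool.and_eq_true, beq_iff_eq, Bool.not_eq_true', beq_eq_false_iff_ne, ne_eq] at h
  exact ⟨h.1.2, fun h1 => h.2.resolve_left (fun h2 => h2 h1)⟩

/-- uniqueness of the next row -/
theorem uniq (n t : ℕ) (ht : 0 < t) (h : R.alive n t) (f : ℕ → ℕ) (f0 : f 0 = 0)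
    (hV : ∀ r, r < t → R.rV n (R.arr n r t) (f r) = true)
    (hH : ∀ r, r < t → R.rH (f r) (f (r + 1)) = true) (hD : R.rD n (f t) = true) :
    R.alive n (t + 1) ∧ ∀ r, r ≤ t → f r = R.arr n r (t + 1) := by
  have hne : ∀ r, 1 ≤ r → r ≤ t → f r ≠ 0 := by
    intro r h1 h2
    obtain ⟨j, rfl⟩ : ∃ j, r = j + 1 := ⟨r - 1, by omega⟩
    exact (R.rH_eq (hH j (by omega))).1
  have hl1 : (R.win (f 1)).1 = none := (R.rH_eq (hH 0 ht)).2.1 f0
  have hl : ∀ r, 1 ≤ r → r < t → stt C (f r) = stt C (f (r + 1)) ∧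
      (R.win (f (r + 1))).1 = some (R.win (f r)).2.1 ∧ (R.win (f r)).2.2 = (R.win (f (r + 1))).2.1 :=
    fun r h1 h2 => (R.rH_eq (hH r h2)).2.2 (hne r h1 h2.le)
  have hst : ∀ r, r + 1 ≤ t → stt C (f (r + 1)) = stt C (f 1) := by
    intro r
    induction r with
    | zero => intro _; rfl
    | succ r ih =>
      intro h1
      rw [← (hl (r + 1) (by omega) (by omega)).1]
      exact ih (by omega)
  obtain ⟨d1, d2, d3⟩ := R.rD_eq hD (hne t ht le_rfl)
  by_cases ht1 : t = 1
  · subst ht1
    refine ⟨Or.inr (by simp [cfg]), ?_⟩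
    intro r hr
    by_cases hr0 : r = 0
    · subst hr0
      rw [f0, arr_zero]
    · have hr1 : r = 1 := by omega
      subst hr1
      rw [R.arr_some (x := (R.q0 n, fun _ => R.bl)) hr0 (by simp [cfg]), ← R.enc_stt_win (hne 1 le_rfl le_rfl)]
      congr 1
      · exact d3 hl1
      · refine Prod.ext ?_ (Prod.ext ?_ ?_)
        · simpa [wnd] using hl1
        · simpa [wnd] using d1
        · simpa [wnd] using d2
  · obtain ⟨k, rfl⟩ : ∃ k, t = k + 2 := ⟨t - 2, by omega⟩
    have h2 : (R.cfg n k).isSome = true := by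
      have := h.resolve_left (by omega)
      simpa using this
    obtain ⟨x, hx⟩ := Option.isSome_iff_exists.1 h2
    have hA : ∀ r, r ≠ 0 → R.arr n r (k + 2) = enc x.1 (wnd x.2 r) := fun r hr =>
      R.arr_some hr (by simpa using hx)
    have hm : ∀ r, 1 ≤ r → r < k + 2 → (R.win (f r)).2.1 = R.nw n x.1 x.2 (r - 1) := by
      intro r h1 h3
      have h4 := hV r h3
      rw [hA r (by omega)] at h4
      have h5 := (R.rV_eq h4 (enc_pos _ _)).1
      rw [R.win_enc, stt_enc R] at h5
      rw [h5]
      by_cases hr1 : r = 1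
      · subst hr1
        simp [wnd, nw]
      · obtain ⟨j, rfl⟩ : ∃ j, r = j + 2 := ⟨r - 2, by omega⟩
        simp [wnd, nw]
    have hq : R.nq n x.1 (x.2 0) = some (stt C (f 1)) := by
      have h4 := hV 1 (by omega)
      rw [hA 1 (by omega)] at h4
      have h5 := (R.rV_eq h4 (enc_pos _ _)).2
      rw [R.win_enc, stt_enc R] at h5
      have := h5 (by simp [wnd])
      simpa [wnd] using this
    have hc : R.cfg n (k + 1) = some (stt C (f 1), R.nw n x.1 x.2) := by
      simp [cfg, hx, step, hq]
    have hbl := R.cfg_bl n (k + 1) _ hc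
    have hm' : ∀ r, 1 ≤ r → r ≤ k + 2 → (R.win (f r)).2.1 = R.nw n x.1 x.2 (r - 1) := by
      intro r h1 h3
      rcases Nat.lt_or_ge r (k + 2) with h4 | h4
      · exact hm r h1 h4
      · have h5 : r = k + 2 := by omega
        subst h5
        rw [d1]
        exact (hbl (k + 2 - 1) (by omega)).symm
    refine ⟨Or.inr (by simp [hc]), ?_⟩
    intro r hr
    by_cases hr0 : r = 0
    · subst hr0
      rw [f0, arr_zero]
    · rw [R.arr_some (x := (stt C (f 1), R.nw n x.1 x.2)) hr0 (by simpa using hc),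
        ← R.enc_stt_win (hne r (by omega) hr)]
      congr 1
      · obtain ⟨j, rfl⟩ : ∃ j, r = j + 1 := ⟨r - 1, by omega⟩
        exact hst j hr
      · refine Prod.ext ?_ (Prod.ext ?_ ?_)
        · by_cases hr1 : r = 1
          · subst hr1
            simpa [wnd] using hl1
          · obtain ⟨j, rfl⟩ : ∃ j, r = j + 2 := ⟨r - 2, by omega⟩
            rw [(hl (j + 1) (by omega) (by omega)).2.1, hm' (j + 1) (by omega) (by omega)]
            simp [wnd]
        · rw [hm' r (by omega) hr]
          rfl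
        · rcases Nat.lt_or_ge r (k + 2) with h4 | h4
          · rw [(hl r (by omega) h4).2.2, hm' (r + 1) (by omega) (by omega)]
            simp [wnd]
          · have h5 : r = k + 2 := by omega
            subst h5
            rw [d2]
            exact (hbl (k + 2) (by omega)).symm

end

end RowM

end Pool.Agent.VHM
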