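import Pool.Agent.VHM.SmallDef

/-!
# VHM/Ctl (MP_720b7c_al, W3): statements of helper10, proved by helper63

The small step control of a supported machine is finite.  `A` = pairs `(q, v)` with `q ∈ TM2.stmts₁ (M l)` for
some `l ∈ S`.
-/

set_option autoImplicit false

namespace Pool.Agent.VHM

open Turing

variable {K : Type} [DecidableEq K] {Γ : K → Type} {Λ σ : Type}

theorem ctl_closed [Finite σ] (M : Λ → TM2.Stmt Γ Λ σ) (S : Finset Λ)
    (hS : ∀ l ∈ S, TM2.SupportsStmt S (M l)) (l0 : Λ) (hl : l0 ∈ S) (v0 : σ) :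
    ∃ A : Set (TM2.Stmt Γ Λ σ × σ), A.Finite ∧ (M l0, v0) ∈ A ∧
      ∀ x ∈ A, ∀ T y, ctl M x.1 x.2 T = some y → y ∈ A := by
  classical
  refine ⟨(⋃ l ∈ S, (TM2.stmts₁ (M l) : Set (TM2.Stmt Γ Λ σ))) ×ˢ Set.univ, ?_, ?_, ?_⟩
  · exact (S.finite_toSet.biUnion fun l _ => (TM2.stmts₁ (M l)).finite_toSet).prod Set.finite_univ
  · refine ⟨?_, Set.mem_univ _⟩
    simp only [Set.mem_iUnion, Finset.mem_coe]
    exact ⟨l0, hl, TM2.stmts₁_self⟩
  · rintro ⟨q, v⟩ ⟨hq, -⟩ T ⟨q', v'⟩ h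
    simp only [Set.mem_iUnion, Finset.mem_coe] at hq
    obtain ⟨l, hlS, hq⟩ := hq
    refine ⟨?_, Set.mem_univ _⟩
    simp only [Set.mem_iUnion, Finset.mem_coe]
    have key : ∀ q1, q1 ∈ TM2.stmts₁ q → ∃ i, ∃ (_ : i ∈ S), q1 ∈ TM2.stmts₁ (M i) := fun q1 h1 =>
      ⟨l, hlS, TM2.stmts₁_trans hq h1⟩
    cases q with
    | push k f q1 =>
      simp only [ctl, Option.some.injEq, Prod.mk.injEq] at h
      rw [← h.1]
      exact key _ (by simp [TM2.stmts₁, TM2.stmts₁_self])
    | peek k f q1 =>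
      simp only [ctl, Option.some.injEq, Prod.mk.injEq] at h
      rw [← h.1]
      exact key _ (by simp [TM2.stmts₁, TM2.stmts₁_self])
    | pop k f q1 =>
      simp only [ctl, Option.some.injEq, Prod.mk.injEq] at h
      rw [← h.1]
      exact key _ (by simp [TM2.stmts₁, TM2.stmts₁_self])
    | load a q1 =>
      simp only [ctl, Option.some.injEq, Prod.mk.injEq] at h
      rw [← h.1]
      exact key _ (by simp [TM2.stmts₁, TM2.stmts₁_self])
    | branch f q1 q2 =>
      simp only [ctl, Option.some.injEq, Prod.mk.injEq] at h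
      rw [← h.1]
      refine key _ ?_
      cases f v <;> simp [TM2.stmts₁, TM2.stmts₁_self]
    | goto f =>
      simp only [ctl, Option.some.injEq, Prod.mk.injEq] at h
      rw [← h.1]
      have h2 := TM2.stmts₁_supportsStmt_mono hq (hS l hlS)
      exact ⟨f v, h2 v, TM2.stmts₁_self⟩
    | halt => simp [ctl] at h

/-- instance for Mathlib's stack machine of a code -/
theorem ctl_code (c : ToPartrec.Code) :
    ∃ A : Set (PartrecToTM2.Stmt' × Option PartrecToTM2.Γ'), A.Finite ∧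
      (PartrecToTM2.tr (PartrecToTM2.trNormal c PartrecToTM2.Cont'.halt), none) ∈ A ∧
      ∀ x ∈ A, ∀ T y, ctl PartrecToTM2.tr x.1 x.2 T = some y → y ∈ A := by
  have h := PartrecToTM2.tr_supports c PartrecToTM2.Cont'.halt
  exact ctl_closed PartrecToTM2.tr (PartrecToTM2.codeSupp c PartrecToTM2.Cont'.halt)
    (fun l hl => h.2 l hl) _ h.1 none

end Pool.Agent.VHM
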