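import Pool.Agent.VHM.SmallDef

/-!
# VHM/SimLem : stacks as columns (MP_720b7c_al, W3, helper10)

`col S j` = the symbols at height `j` (the tops are at height `0`); `rul` = the local window rule; it
reproduces `act`.
-/

set_option autoImplicit false

namespace Pool.Agent.VHM

open Turing

variable {K : Type} [DecidableEq K] {Γ : K → Type} {Λ σ : Type}

/-- the symbols of all stacks at distance `j` from the tops -/
def col (S : ∀ k, List (Γ k)) (j : ℕ) : ∀ k, Option (Γ k) := fun k => (S k)[j]?

/-- window rule of a statement: left neighbour (`none` at the edge), own, right neighbour -/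
def rul : TM2.Stmt Γ Λ σ → σ → Option (∀ k, Option (Γ k)) → (∀ k, Option (Γ k)) →
    (∀ k, Option (Γ k)) → (∀ k, Option (Γ k))
  | .push k f _, v, l, m, _ => Function.update m k (match l with
    | none => some (f v)
    | some l => l k)
  | .peek _ _ _, _, _, m, _ => m
  | .pop k _ _, _, _, m, r => Function.update m k (r k)
  | .load _ _, _, _, m, _ => m
  | .branch _ _ _, _, _, m, _ => m
  | .goto _, _, _, m, _ => m
  | .halt, _, _, m, _ => m

theorem head_col (S : ∀ k, List (Γ k)) : (fun k => (S k).head?) = col S 0 := by
  funext k
  unfold col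
  exact List.head?_eq_getElem?

theorem col_nil (j : ℕ) : col (fun k => ([] : List (Γ k))) j = fun _ => none := by
  funext k
  simp [col]

/-- pushing -/
theorem col_push_zero (S : ∀ k, List (Γ k)) (k : K) (x : Γ k) :
    col (Function.update S k (x :: S k)) 0 = Function.update (col S 0) k (some x) := by
  funext k'
  by_cases h : k' = k
  · subst h
    simp [col]
  · simp [col, h]

theorem col_push_succ (S : ∀ k, List (Γ k)) (k : K) (x : Γ k) (j : ℕ) :
    col (Function.update S k (x :: S k)) (j + 1) = Function.update (col S (j + 1)) k (col S j k) := by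
  funext k'
  by_cases h : k' = k
  · subst h
    simp [col]
  · simp [col, h]

theorem col_pop (S : ∀ k, List (Γ k)) (k : K) (j : ℕ) :
    col (Function.update S k (S k).tail) j = Function.update (col S j) k (col S (j + 1) k) := by
  funext k'
  by_cases h : k' = k
  · subst h
    simp [col]
  · simp [col, h]

theorem col_act_zero (q : TM2.Stmt Γ Λ σ) (v : σ) (S : ∀ k, List (Γ k)) :
    col (act q v S) 0 = rul q v none (col S 0) (col S 1) := by
  cases q with
  | push k f q => exact col_push_zero S k (f v)
  | pop k f q => exact col_pop S k 0
  | peek k f q => rfl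
  | load a q => rfl
  | branch f q₁ q₂ => rfl
  | goto f => rfl
  | halt => rfl

theorem col_act_succ (q : TM2.Stmt Γ Λ σ) (v : σ) (S : ∀ k, List (Γ k)) (j : ℕ) :
    col (act q v S) (j + 1) = rul q v (some (col S j)) (col S (j + 1)) (col S (j + 2)) := by
  cases q with
  | push k f q => exact col_push_succ S k (f v) j
  | pop k f q => exact col_pop S k (j + 1)
  | peek k f q => rfl
  | load a q => rfl
  | branch f q₁ q₂ => rfl
  | goto f => rfl
  | halt => rfl

theorem rul_blank (q : TM2.Stmt Γ Λ σ) (v : σ) :
    rul q v (some fun _ => none) (fun _ => none) (fun _ => none) = fun _ => none := by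
  cases q with
  | push k f q =>
    funext k'
    by_cases h : k' = k
    · subst h
      simp [rul]
    · simp [rul, h]
  | pop k f q =>
    funext k'
    by_cases h : k' = k
    · subst h
      simp [rul]
    · simp [rul, h]
  | peek k f q => rfl
  | load a q => rfl
  | branch f q₁ q₂ => rfl
  | goto f => rfl
  | halt => rfl

end Pool.Agent.VHM
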