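import Pool.Agent.VHM.SmallDef

/-!
# VHM/Small (MP_720b7c_al, W3): small step version of the stack machines halts iff the big step version does

Statements of helper10.

`small_dom`, (if): from `⟨q, v, S⟩` the small step machine runs to the configuration that `TM2.stepAux q v S`
describes; then induction on the run of `TM2.step M`.
(only if): if `⟨q, v, S⟩` halts then `(eval (TM2.step M) (TM2.stepAux q v S)).Dom`, by induction on the run, cases
on `q`.
-/

set_option autoImplicit false

namespace Pool.Agent.VHM

open Turing StateTransition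

section
variable {K : Type} [DecidableEq K] {Γ : K → Type} {Λ σ : Type}

/-- statement to execute in the big step configuration `l` -/
private def stq (M : Λ → TM2.Stmt Γ Λ σ) : Option Λ → TM2.Stmt Γ Λ σ
  | some l => M l
  | none => .halt

private theorem reach_head (M : Λ → TM2.Stmt Γ Λ σ) {a b c : SC Γ Λ σ} (h : sstep M a = some b)
    (h' : Reaches (sstep M) b c) : Reaches (sstep M) a c :=
  Relation.ReflTransGen.head h h'

private theorem reach_aux (M : Λ → TM2.Stmt Γ Λ σ) :
    ∀ (q : TM2.Stmt Γ Λ σ) (v : σ) (S : ∀ k, List (Γ k)),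
      Reaches (sstep M) ⟨q, v, S⟩
        ⟨stq M (TM2.stepAux q v S).l, (TM2.stepAux q v S).var, (TM2.stepAux q v S).stk⟩ := by
  intro q
  induction q with
  | push k f q ih =>
    intro v S
    simp only [TM2.stepAux]
    exact reach_head M rfl (ih v (Function.update S k (f v :: S k)))
  | peek k f q ih =>
    intro v S
    simp only [TM2.stepAux]
    exact reach_head M rfl (ih (f v (S k).head?) S)
  | pop k f q ih =>
    intro v S
    simp only [TM2.stepAux]
    exact reach_head M rfl
      (ih (f v (S k).head?) (Function.update S k (S k).tail))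
  | load a q ih =>
    intro v S
    simp only [TM2.stepAux]
    exact reach_head M rfl (ih (a v) S)
  | branch f q₁ q₂ ih₁ ih₂ =>
    intro v S
    refine reach_head M (b := ⟨cond (f v) q₁ q₂, v, S⟩) rfl ?_
    simp only [TM2.stepAux]
    cases f v
    · exact ih₂ v S
    · exact ih₁ v S
  | goto f =>
    intro v S
    exact Relation.ReflTransGen.single rfl
  | halt =>
    intro v S
    exact Relation.ReflTransGen.refl

private theorem stepAux_dom (M : Λ → TM2.Stmt Γ Λ σ) (b : SC Γ Λ σ) (a : SC Γ Λ σ)
    (h : b ∈ eval (sstep M) a) : (eval (TM2.step M) (TM2.stepAux a.q a.v a.S)).Dom := by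
  refine evalInduction h ?_
  rintro ⟨q, v, S⟩ _ IH
  cases q with
  | push k f q => exact IH ⟨q, v, Function.update S k (f v :: S k)⟩ rfl
  | peek k f q => exact IH ⟨q, f v (S k).head?, S⟩ rfl
  | pop k f q => exact IH ⟨q, f v (S k).head?, Function.update S k (S k).tail⟩ rfl
  | load a q => exact IH ⟨q, a v, S⟩ rfl
  | branch f q₁ q₂ =>
    have := IH ⟨cond (f v) q₁ q₂, v, S⟩ rfl
    simp only [TM2.stepAux]
    revert this
    cases f v <;> exact id
  | goto f =>
    have := IH ⟨M (f v), v, S⟩ rfl
    simp only [TM2.stepAux]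
    rw [reaches_eval (f := TM2.step M) (b := TM2.stepAux (M (f v)) v S)
      (Relation.ReflTransGen.single rfl)]
    exact this
  | halt =>
    simp only [TM2.stepAux]
    exact Part.dom_iff_mem.2 ⟨_, mem_eval.2 ⟨Relation.ReflTransGen.refl, rfl⟩⟩

theorem small_dom (M : Λ → TM2.Stmt Γ Λ σ) (l : Λ) (v : σ) (S : ∀ k, List (Γ k)) :
    (StateTransition.eval (sstep M) ⟨M l, v, S⟩).Dom ↔
      (StateTransition.eval (TM2.step M) ⟨some l, v, S⟩).Dom := by
  constructor
  · intro h
    obtain ⟨b, hb⟩ := Part.dom_iff_mem.1 h
    rw [reaches_eval (f := TM2.step M) (b := TM2.stepAux (M l) v S)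
      (Relation.ReflTransGen.single rfl)]
    exact stepAux_dom M b ⟨M l, v, S⟩ hb
  · intro h
    obtain ⟨b, hb⟩ := Part.dom_iff_mem.1 h
    have key : ∀ c : TM2.Cfg Γ Λ σ, b ∈ eval (TM2.step M) c →
        (eval (sstep M) ⟨stq M c.l, c.var, c.stk⟩).Dom := by
      intro c hc
      refine evalInduction hc ?_
      rintro ⟨l, v, S⟩ _ IH
      cases l with
      | none => exact Part.dom_iff_mem.2 ⟨_, mem_eval.2 ⟨Relation.ReflTransGen.refl, rfl⟩⟩
      | some l =>
        have := IH (TM2.stepAux (M l) v S) rfl
        rw [← reaches_eval (reach_aux M (M l) v S)] at this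
        exact this
    exact key _ hb

end

private theorem iterO_reaches {A : Type} (f : A → Option A) (a : A) :
    ∀ (k : ℕ) (b : A), iterO f a k = some b → Reaches f a b := by
  intro k
  induction k with
  | zero =>
    intro b hb
    simp only [iterO, Option.some.injEq] at hb
    subst hb
    exact Relation.ReflTransGen.refl
  | succ k ih =>
    intro b hb
    simp only [iterO, Option.bind_eq_some_iff] at hb
    obtain ⟨c, hc, hcb⟩ := hb
    exact (ih c hc).tail hcb

private theorem reaches_iterO {A : Type} (f : A → Option A) (a b : A) (h : Reaches f a b) :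
    ∃ k, iterO f a k = some b := by
  induction h with
  | refl => exact ⟨0, rfl⟩
  | tail _ hbc ih =>
    obtain ⟨k, hk⟩ := ih
    refine ⟨k + 1, ?_⟩
    simp only [iterO, hk, Option.bind_some]
    exact hbc

theorem eval_dom_iterO {A : Type} (f : A → Option A) (a : A) :
    (StateTransition.eval f a).Dom ↔ ¬ ∀ k, (iterO f a k).isSome = true := by
  constructor
  · intro h hall
    obtain ⟨b, hb⟩ := Part.dom_iff_mem.1 h
    obtain ⟨hab, hb0⟩ := mem_eval.1 hb
    obtain ⟨k, hk⟩ := reaches_iterO f a b hab
    have := hall (k + 1)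
    simp only [iterO, hk, Option.bind_some, hb0] at this
    exact absurd this (by simp)
  · intro h
    by_contra hd
    apply h
    intro k
    induction k with
    | zero => rfl
    | succ k ih =>
      obtain ⟨b, hb⟩ := Option.isSome_iff_exists.1 ih
      simp only [iterO, hb, Option.bind_some]
      by_contra hn
      apply hd
      refine Part.dom_iff_mem.2 ⟨b, mem_eval.2 ⟨iterO_reaches f a k b hb, ?_⟩⟩
      simpa using hn

end Pool.Agent.VHM
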