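import Mathlib

/-!
# VHM/TrL : the input word `trList [n]` of Mathlib's stack machine is a primitive recursive function of `n`
(first half of module D of W3, MP_720b7c_al)
-/

set_option autoImplicit false

namespace Pool.Agent.VHM.TrL

open Turing Turing.PartrecToTM2

/-- numbers of the stack symbols -/
def gn : Γ' → ℕ
  | Γ'.consₗ => 0
  | Γ'.cons => 1
  | Γ'.bit0 => 2
  | Γ'.bit1 => 3

theorem gn_lt (x : Γ') : gn x < 4 := by cases x <;> decide

theorem gn_inj : Function.Injective gn := by
  intro x y h
  cases x <;> cases y <;> first | rfl | (simp [gn] at h)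

/-- `gn` as an equivalence -/
noncomputable def gE : Γ' ≃ Fin 4 :=
  Equiv.ofBijective (fun x => ⟨gn x, gn_lt x⟩) (by
    refine (Fintype.bijective_iff_injective_and_card _).2 ⟨fun x y h => gn_inj (Fin.mk.inj h), by decide⟩)

theorem gE_val (x : Γ') : (gE x).val = gn x := rfl

private theorem trNum_bit0 (n : Num) (h : n ≠ 0) : trNum n.bit0 = Γ'.bit0 :: trNum n := by
  cases n with
  | zero => exact absurd rfl h
  | pos p => rfl

private theorem trNum_bit1 (n : Num) : trNum n.bit1 = Γ'.bit1 :: trNum n := by
  cases n <;> rfl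

theorem trNat_bit (n : ℕ) (h : n ≠ 0) :
    trNat n = (if n % 2 = 1 then Γ'.bit1 else Γ'.bit0) :: trNat (n / 2) := by
  obtain ⟨k, rfl | rfl⟩ := Nat.even_or_odd' n
  · have hk : k ≠ 0 := by rintro rfl; exact h rfl
    have h1 : 2 * k % 2 = 0 := by omega
    have h2 : 2 * k / 2 = k := by omega
    have h3 : ((2 * k : ℕ) : Num) = (k : Num).bit0 := by
      rw [← Num.bit0_of_bit0]; push_cast; ring
    rw [h1, h2, trNat, h3, trNum_bit0]
    · rfl
    · intro hz
      apply hk
      have := congrArg (fun x : Num => (x : ℕ)) hz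
      simpa using this
  · have h1 : (2 * k + 1) % 2 = 1 := by omega
    have h2 : (2 * k + 1) / 2 = k := by omega
    have h3 : ((2 * k + 1 : ℕ) : Num) = (k : Num).bit1 := by
      rw [← Num.bit1_of_bit1]; push_cast; ring
    rw [h1, h2, trNat, h3, trNum_bit1]
    rfl

/-- the input word as a list of numbers -/
def wd (n : ℕ) : List ℕ := (trList [n]).map gn

theorem wd_zero : wd 0 = [1] := by
  simp [wd, gn]

theorem wd_pos (n : ℕ) (h : n ≠ 0) : wd n = (2 + n % 2) :: wd (n / 2) := by
  unfold wd
  have e : trList [n] = (if n % 2 = 1 then Γ'.bit1 else Γ'.bit0) :: trList [n / 2] := by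
    simp only [trList]
    rw [trNat_bit n h]
    rfl
  rw [e, List.map_cons]
  congr 1
  rcases Nat.mod_two_eq_zero_or_one n with h0 | h0 <;> simp [h0, gn]

theorem wd_primrec : Primrec wd := by
  have hg : Primrec₂ (fun (_ : Unit) (l : List (List ℕ)) =>
      if l.length = 0 then some [1]
      else (l[l.length / 2]?).map (fun r => (2 + l.length % 2) :: r)) := by
    have hl : Primrec fun p : Unit × List (List ℕ) => p.2.length := Primrec.list_length.comp Primrec.snd
    refine Primrec.ite (Primrec.eq.comp hl (Primrec.const 0)) (Primrec.const _) ?_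
    refine Primrec.option_map
      (Primrec.list_getElem?.comp Primrec.snd (Primrec.nat_div.comp hl (Primrec.const 2))) ?_
    refine Primrec.list_cons.comp ?_ Primrec.snd
    exact Primrec.nat_add.comp (Primrec.const 2)
      (Primrec.nat_mod.comp (hl.comp Primrec.fst) (Primrec.const 2))
  have h := Primrec.nat_strong_rec (fun (_ : Unit) n => wd n) hg ?_
  · exact h.comp (Primrec.const ()) Primrec.id
  · intro _ n
    simp only [List.length_map, List.length_range]
    by_cases h : n = 0
    · subst h; simp [wd_zero]
    · rw [if_neg h]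
      have h2 : n / 2 < n := Nat.div_lt_self (Nat.pos_of_ne_zero h) (by norm_num)
      rw [List.getElem?_map, List.getElem?_range h2]
      simp [wd_pos n h]

theorem wd_computable : Computable wd := wd_primrec.to_comp

theorem wd_length (n : ℕ) : (wd n).length = (trList [n]).length := by simp [wd]

theorem len_primrec : Primrec fun n => (trList [n]).length :=
  (Primrec.list_length.comp wd_primrec).of_eq wd_length

theorem wd_lt (n x : ℕ) (h : x ∈ wd n) : x < 4 := by
  simp only [wd, List.mem_map] at h
  obtain ⟨y, -, rfl⟩ := h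
  exact gn_lt y

theorem wd_getElem? (n i : ℕ) : (wd n)[i]? = ((trList [n])[i]?).map gn := by
  rw [wd, List.getElem?_map]

end Pool.Agent.VHM.TrL
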