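import Mathlib

/-!
# VHM/Univ : a universal code whose halting set over Mathlib's stack machine is not computable
(module C of W3, MP_720b7c_al)
-/

set_option autoImplicit false

namespace Pool.Agent.VHM.Univ

open Turing Turing.PartrecToTM2

/-- the self-halting function: `n ↦ eval (code number n) 0` -/
private def gU (n : ℕ) : Part ℕ := Nat.Partrec.Code.eval (Denumerable.ofNat Nat.Partrec.Code n) 0

private theorem gU_partrec : Partrec gU := by
  have h := Nat.Partrec.Code.eval_part
  exact h.comp (Computable.ofNat Nat.Partrec.Code) (Computable.const 0)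

private theorem gU_not : ¬ ComputablePred fun n : ℕ => (gU n).Dom := by
  intro h
  apply ComputablePred.halting_problem 0
  obtain ⟨hd, hc⟩ := h
  refine ⟨fun c => ?_, ?_⟩
  · have := hd (Encodable.encode c)
    simpa [gU] using this
  · have h2 : Computable fun c : Nat.Partrec.Code => (Encodable.encode c : ℕ) := Computable.encode
    have h3 := hc.comp h2
    refine h3.of_eq fun c => ?_
    simp [gU]

theorem univ : ∃ c : Turing.ToPartrec.Code, ¬ ComputablePred fun n : ℕ =>
    (StateTransition.eval (TM2.step tr) (init c [n])).Dom := by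
  have h1 : Nat.Partrec' (fun v : List.Vector ℕ 1 => gU v.head) :=
    Nat.Partrec'.part_iff₁.2 gU_partrec
  obtain ⟨c, hc⟩ := Turing.ToPartrec.Code.exists_code h1
  refine ⟨c, fun h => gU_not (h.of_eq fun n => ?_)⟩
  rw [tr_eval]
  have := hc (n ::ᵥ List.Vector.nil)
  have e : (n ::ᵥ List.Vector.nil : List.Vector ℕ 1).1 = [n] := rfl
  rw [e] at this
  rw [this]
  simp [Part.map_eq_map]

end Pool.Agent.VHM.Univ
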