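import Pool.Agent.VHM.Arr
import Pool.Agent.VHM.Small
import Pool.Agent.VHM.Ctl
import Pool.Agent.VHM.SimLem
import Pool.Agent.VHM.Univ
import Pool.Agent.VHM.TrL

/-!
# VHM/Sim : the row machine of the universal stack machine, with loader (MP_720b7c_al, W3, helper9)

States `q < m`: numbers of the pairs (statement, variable) of a finite closed set; `q = m`: go to the start;
`q = m + i + 1`: push the symbol number `i` of `trList [n]` on the main stack, next state `m + i`.
-/

set_option autoImplicit false

namespace Pool.Agent.VHM.Sim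

open Turing Turing.PartrecToTM2

/-- a function of a number and of an element of a finite type which does not depend on the number from
`m` on is primitive recursive -/
theorem fin_dom {α β : Type} [Primcodable α] [Finite α] [Primcodable β] (f : ℕ → α → β) (m : ℕ)
    (h : ∀ q, m ≤ q → f q = f m) : Primrec₂ f := by
  have h1 : Primrec fun a : α => (List.range m).map (fun q => f q a) := Primrec.dom_finite _
  have h2 : Primrec fun a : α => f m a := Primrec.dom_finite _
  have h3 : Primrec fun x : ℕ × α =>
      (((List.range m).map (fun q => f q x.2))[x.1]?).getD (f m x.2) :=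
    Primrec.option_getD.comp (Primrec.list_getElem?.comp (h1.comp Primrec.snd) Primrec.fst)
      (h2.comp Primrec.snd)
  refine h3.of_eq ?_
  rintro ⟨q, a⟩
  by_cases hq : q < m
  · simp [List.getElem?_range hq]
  · have h4 : m ≤ q := not_lt.1 hq
    rw [List.getElem?_eq_none (by simpa using h4)]
    simp [h q h4]

private instance finK : Finite K' :=
  Finite.of_surjective (fun i : Fin 4 => (![K'.main, K'.rev, K'.aux, K'.stack] : Fin 4 → K') i) (by
    intro x
    cases x
    · exact ⟨0, rfl⟩
    · exact ⟨1, rfl⟩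
    · exact ⟨2, rfl⟩
    · exact ⟨3, rfl⟩)

/-- contents of a cell -/
abbrev CC : Type := K' → Option Γ'

/-- numbering of the contents -/
noncomputable def eC : CC ≃ Fin (Nat.card CC) := Finite.equivFin CC

/-- letters from numbers -/
def dec : ℕ → Option Γ'
  | 0 => some Γ'.consₗ
  | 1 => some Γ'.cons
  | 2 => some Γ'.bit0
  | 3 => some Γ'.bit1
  | _ => none

theorem dec_gn (x : Γ') : dec (TrL.gn x) = some x := by cases x <;> rfl

/-- window rule of the loader -/
noncomputable def ldr (y : ℕ) (x : Option (Fin (Nat.card CC)) × Fin (Nat.card CC) × Fin (Nat.card CC)) :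
    Fin (Nat.card CC) :=
  eC (Function.update (eC.symm x.2.1) K'.main (match x.1 with
    | none => dec y
    | some l => eC.symm l K'.main))

/-- a finite numbered closed set of control states -/
structure Num where
  m : ℕ
  st : ℕ → Stmt' × Option Γ'
  ix : Stmt' × Option Γ' → ℕ
  s0 : Stmt' × Option Γ'
  hs0 : ix s0 < m ∧ st (ix s0) = s0
  cl : ∀ q, q < m → ∀ T y, ctl tr (st q).1 (st q).2 T = some y → ix y < m ∧ st (ix y) = y

theorem num_exists (s0 : Stmt' × Option Γ') (A : Set (Stmt' × Option Γ')) (hA : A.Finite)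
    (h0 : s0 ∈ A) (hcl : ∀ x ∈ A, ∀ T y, ctl tr x.1 x.2 T = some y → y ∈ A) :
    ∃ N : Num, N.s0 = s0 := by
  classical
  haveI : Finite A := hA.to_subtype
  let e : A ≃ Fin (Nat.card A) := Finite.equivFin A
  let ix : Stmt' × Option Γ' → ℕ := fun y => if h : y ∈ A then (e ⟨y, h⟩).val else 0
  let st : ℕ → Stmt' × Option Γ' := fun q => if h : q < Nat.card A then (e.symm ⟨q, h⟩).val else s0
  have h1 : ∀ y, y ∈ A → ix y < Nat.card A ∧ st (ix y) = y := by
    intro y hy
    have h2 : ix y = (e ⟨y, hy⟩).val := by simp only [ix]; rw [dif_pos hy]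
    refine ⟨by rw [h2]; exact (e ⟨y, hy⟩).isLt, ?_⟩
    have h3 : ix y < Nat.card A := by rw [h2]; exact (e ⟨y, hy⟩).isLt
    simp only [st]
    rw [dif_pos h3]
    have h4 : (⟨ix y, h3⟩ : Fin (Nat.card A)) = e ⟨y, hy⟩ := Fin.ext h2
    rw [h4, Equiv.symm_apply_apply]
  have h5 : ∀ q, q < Nat.card A → st q ∈ A := by
    intro q hq
    simp only [st]
    rw [dif_pos hq]
    exact (e.symm ⟨q, hq⟩).2
  exact ⟨{ m := Nat.card A, st := st, ix := ix, s0 := s0, hs0 := h1 s0 h0,
           cl := fun q hq T y hy => h1 y (hcl _ (h5 q hq) T y hy) }, rfl⟩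

variable (N : Num)

/-- control part -/
noncomputable def nqf (q : ℕ) (c : Fin (Nat.card CC)) : Option ℕ :=
  if q < N.m then (ctl tr (N.st q).1 (N.st q).2 (eC.symm c)).map N.ix else none

/-- contents part -/
noncomputable def shf (q : ℕ)
    (x : Option (Fin (Nat.card CC)) × Fin (Nat.card CC) × Fin (Nat.card CC)) : Fin (Nat.card CC) :=
  if q < N.m then eC (rul (N.st q).1 (N.st q).2 (x.1.map eC.symm) (eC.symm x.2.1) (eC.symm x.2.2))
  else x.2.1

/-- the row machine -/
noncomputable def row : RowM (Fin (Nat.card CC)) where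
  bl := eC fun _ => none
  q0 n := N.m + (trList [n]).length
  bound n := N.m + (trList [n]).length + 1
  nq _ q c := if q < N.m then nqf N q c else if q = N.m then some (N.ix N.s0) else some (q - 1)
  sh n q l m r := if q < N.m then shf N q (l, m, r) else if q = N.m then m else
    ldr (((TrL.wd n)[q - N.m - 1]?).getD 4) (l, m, r)
  q0_lt n := Nat.lt_succ_self _
  nq_lt n q c q' h1 h2 := by
    have h3 := N.hs0.1
    split_ifs at h2 with h4 h5
    · unfold nqf at h2
      rw [if_pos h4] at h2
      obtain ⟨y, h6, h7⟩ := Option.map_eq_some_iff.1 h2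
      have := (N.cl q h4 _ y h6).1
      omega
    · simp only [Option.some.injEq] at h2
      omega
    · simp only [Option.some.injEq] at h2
      omega
  sh_bl n q := by
    split_ifs with h4 h5
    · unfold shf
      rw [if_pos h4]
      simp only [Option.map_some, Equiv.symm_apply_apply]
      rw [rul_blank]
    · rfl
    · unfold ldr
      simp

/-! ## computability -/

theorem q0_c : Computable (row N).q0 :=
  (Primrec.nat_add.comp (Primrec.const N.m) TrL.len_primrec).to_comp

theorem bound_c : Computable (row N).bound :=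
  (Primrec.succ.comp (Primrec.nat_add.comp (Primrec.const N.m) TrL.len_primrec)).to_comp

theorem nq_c : Computable fun x : ℕ × ℕ × Fin (Nat.card CC) => (row N).nq x.1 x.2.1 x.2.2 := by
  have h1 : Primrec₂ (nqf N) := fin_dom _ N.m (by
    intro q hq
    funext c
    unfold nqf
    rw [if_neg (by omega), if_neg (by omega)])
  have hq : Primrec fun x : ℕ × ℕ × Fin (Nat.card CC) => x.2.1 := Primrec.fst.comp Primrec.snd
  have hc : Primrec fun x : ℕ × ℕ × Fin (Nat.card CC) => x.2.2 := Primrec.snd.comp Primrec.snd
  refine Primrec.to_comp ?_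
  refine Primrec.ite (Primrec.nat_lt.comp hq (Primrec.const _)) (h1.comp hq hc) ?_
  exact Primrec.ite (Primrec.eq.comp hq (Primrec.const _)) (Primrec.const _)
    (Primrec.option_some.comp (Primrec.pred.comp hq))

theorem sh_c : Computable fun x : ℕ × ℕ × (Option (Fin (Nat.card CC)) × Fin (Nat.card CC) ×
    Fin (Nat.card CC)) => (row N).sh x.1 x.2.1 x.2.2.1 x.2.2.2.1 x.2.2.2.2 := by
  have h1 : Primrec₂ fun (q : ℕ) (x : Option (Fin (Nat.card CC)) × Fin (Nat.card CC) ×
      Fin (Nat.card CC)) => shf N q x := fin_dom _ N.m (by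
    intro q hq
    funext c
    unfold shf
    rw [if_neg (by omega), if_neg (by omega)])
  have h2 : Primrec₂ fun (q : ℕ) (x : Option (Fin (Nat.card CC)) × Fin (Nat.card CC) ×
      Fin (Nat.card CC)) => ldr q x := fin_dom _ 4 (by
    intro q hq
    funext c
    have h3 : dec q = none := by
      obtain ⟨k, rfl⟩ : ∃ k, q = k + 4 := ⟨q - 4, by omega⟩
      rfl
    have h4 : dec 4 = none := rfl
    unfold ldr
    rw [h3, h4])
  have hn : Primrec fun x : ℕ × ℕ × (Option (Fin (Nat.card CC)) × Fin (Nat.card CC) ×
      Fin (Nat.card CC)) => x.1 := Primrec.fst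
  have hq : Primrec fun x : ℕ × ℕ × (Option (Fin (Nat.card CC)) × Fin (Nat.card CC) ×
      Fin (Nat.card CC)) => x.2.1 := Primrec.fst.comp Primrec.snd
  have hw : Primrec fun x : ℕ × ℕ × (Option (Fin (Nat.card CC)) × Fin (Nat.card CC) ×
      Fin (Nat.card CC)) => x.2.2 := Primrec.snd.comp Primrec.snd
  refine Primrec.to_comp ?_
  refine Primrec.ite (Primrec.nat_lt.comp hq (Primrec.const _)) (h1.comp hq hw) ?_
  refine Primrec.ite (Primrec.eq.comp hq (Primrec.const _)) (Primrec.fst.comp (Primrec.snd.comp hw)) ?_
  refine h2.comp ?_ hw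
  refine Primrec.option_getD.comp (Primrec.list_getElem?.comp (TrL.wd_primrec.comp hn) ?_)
    (Primrec.const 4)
  exact Primrec.nat_sub.comp (Primrec.nat_sub.comp hq (Primrec.const _)) (Primrec.const 1)

/-! ## simulation -/

/-- contents of a configuration of the stacks -/
noncomputable def cw (S : ∀ _ : K', List Γ') : ℕ → Fin (Nat.card CC) := fun j => eC (col S j)

theorem nw_ctl (n : ℕ) (x : Stmt' × Option Γ') (hx : N.ix x < N.m ∧ N.st (N.ix x) = x)
    (S : ∀ _ : K', List Γ') : (row N).nw n (N.ix x) (cw S) = cw (act x.1 x.2 S) := by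
  funext j
  cases j with
  | zero =>
    show (if N.ix x < N.m then shf N (N.ix x) (none, cw S 0, cw S 1) else _) = _
    rw [if_pos hx.1]
    unfold shf cw
    rw [if_pos hx.1, hx.2]
    simp only [Option.map_none, Equiv.symm_apply_apply]
    rw [col_act_zero]
  | succ j =>
    show (if N.ix x < N.m then shf N (N.ix x) (some (cw S j), cw S (j + 1), cw S (j + 2)) else _) = _
    rw [if_pos hx.1]
    unfold shf cw
    rw [if_pos hx.1, hx.2]
    simp only [Option.map_some, Equiv.symm_apply_apply]
    rw [col_act_succ]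

theorem nq_ctl (n : ℕ) (x : Stmt' × Option Γ') (hx : N.ix x < N.m ∧ N.st (N.ix x) = x)
    (S : ∀ _ : K', List Γ') : (row N).nq n (N.ix x) (cw S 0) =
      (ctl tr x.1 x.2 (fun k => (S k).head?)).map N.ix := by
  show (if N.ix x < N.m then nqf N (N.ix x) (cw S 0) else _) = _
  rw [if_pos hx.1]
  unfold nqf cw
  rw [if_pos hx.1, hx.2, Equiv.symm_apply_apply, head_col]

/-- the stacks with the word `L` on the main stack -/
def Sd (L : List Γ') : ∀ _ : K', List Γ' := K'.elim L [] [] []

theorem Sd_cons (x : Γ') (L : List Γ') :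
    Sd (x :: L) = Function.update (Sd L) K'.main (x :: Sd L K'.main) := by
  funext k
  cases k <;> simp [Sd, Function.update]

theorem load (n : ℕ) : ∀ j, j ≤ (trList [n]).length →
    (row N).cfg n j = some (N.m + ((trList [n]).length - j),
      cw (Sd ((trList [n]).drop ((trList [n]).length - j)))) := by
  intro j
  induction j with
  | zero =>
    intro _
    show some ((row N).q0 n, fun _ => (row N).bl) = _
    rw [Nat.sub_zero, List.drop_length]
    congr 1
    refine Prod.ext rfl ?_
    funext j
    show eC (fun _ => none) = eC (col (Sd []) j)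
    congr 1
    funext k
    cases k <;> simp [col, Sd]
  | succ j ih =>
    intro hj
    have ih := ih (by omega)
    obtain ⟨i, hi⟩ : ∃ i, (trList [n]).length - j = i + 1 := ⟨(trList [n]).length - j - 1, by omega⟩
    have hi2 : (trList [n]).length - (j + 1) = i := by omega
    have hi3 : i < (trList [n]).length := by omega
    rw [hi] at ih
    rw [hi2]
    show ((row N).cfg n j).bind ((row N).step n) = _
    rw [ih]
    show ((row N).nq n (N.m + (i + 1)) _).map _ = _
    have e1 : (row N).nq n (N.m + (i + 1))
        (cw (Sd ((trList [n]).drop (i + 1))) 0) = some (N.m + i) := by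
      show (if N.m + (i + 1) < N.m then _ else if N.m + (i + 1) = N.m then _ else
        some (N.m + (i + 1) - 1)) = _
      rw [if_neg (by omega), if_neg (by omega)]
      congr 1
    rw [e1]
    simp only [Option.map_some]
    congr 1
    refine Prod.ext rfl ?_
    have e2 : (trList [n]).drop i = (trList [n])[i] :: (trList [n]).drop (i + 1) :=
      List.drop_eq_getElem_cons hi3
    rw [e2]
    set L := (trList [n]).drop (i + 1) with hL
    set x := (trList [n])[i] with hx
    have e3 : ((TrL.wd n)[N.m + (i + 1) - N.m - 1]?).getD 4 = TrL.gn x := by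
      have : N.m + (i + 1) - N.m - 1 = i := by omega
      rw [this, TrL.wd_getElem?, List.getElem?_eq_getElem hi3]
      rfl
    funext j
    cases j with
    | zero =>
      show (if N.m + (i + 1) < N.m then _ else if N.m + (i + 1) = N.m then _ else
        ldr (((TrL.wd n)[N.m + (i + 1) - N.m - 1]?).getD 4) (none, cw (Sd L) 0, cw (Sd L) 1)) = _
      rw [if_neg (by omega), if_neg (by omega), e3]
      unfold ldr cw
      simp only [Equiv.symm_apply_apply]
      rw [dec_gn, Sd_cons, col_push_zero]
    | succ j =>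
      show (if N.m + (i + 1) < N.m then _ else if N.m + (i + 1) = N.m then _ else
        ldr (((TrL.wd n)[N.m + (i + 1) - N.m - 1]?).getD 4)
          (some (cw (Sd L) j), cw (Sd L) (j + 1), cw (Sd L) (j + 2))) = _
      rw [if_neg (by omega), if_neg (by omega), e3]
      unfold ldr cw
      simp only [Equiv.symm_apply_apply]
      rw [Sd_cons, col_push_succ]

theorem start (n : ℕ) : (row N).cfg n ((trList [n]).length + 1) =
    some (N.ix N.s0, cw (Sd (trList [n]))) := by
  show ((row N).cfg n (trList [n]).length).bind ((row N).step n) = _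
  rw [load N n _ le_rfl, Nat.sub_self, List.drop_zero]
  show ((row N).nq n (N.m + 0) _).map _ = _
  have e1 : (row N).nq n (N.m + 0) (cw (Sd (trList [n])) 0) = some (N.ix N.s0) := by
    show (if N.m + 0 < N.m then _ else if N.m + 0 = N.m then _ else _) = _
    rw [if_neg (by omega), if_pos (by omega)]
  rw [e1]
  simp only [Option.map_some]
  congr 1
  refine Prod.ext rfl ?_
  funext j
  cases j with
  | zero =>
    show (if N.m + 0 < N.m then _ else if N.m + 0 = N.m then cw (Sd (trList [n])) 0 else _) = _
    rw [if_neg (by omega), if_pos (by omega)]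
  | succ j =>
    show (if N.m + 0 < N.m then _ else if N.m + 0 = N.m then cw (Sd (trList [n])) (j + 1) else _) = _
    rw [if_neg (by omega), if_pos (by omega)]

theorem run (n : ℕ) : ∀ k,
    (∀ x, iterO (sstep tr) ⟨N.s0.1, N.s0.2, Sd (trList [n])⟩ k = some x →
      N.ix (x.q, x.v) < N.m ∧ N.st (N.ix (x.q, x.v)) = (x.q, x.v)) ∧
    (row N).cfg n ((trList [n]).length + 1 + k) =
      (iterO (sstep tr) ⟨N.s0.1, N.s0.2, Sd (trList [n])⟩ k).map
        (fun x => (N.ix (x.q, x.v), cw x.S)) := by
  intro k
  induction k with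
  | zero =>
    refine ⟨?_, ?_⟩
    · intro x hx
      simp only [iterO, Option.some.injEq] at hx
      subst hx
      exact N.hs0
    · exact start N n
  | succ k ih =>
    obtain ⟨ih1, ih2⟩ := ih
    have hc : (row N).cfg n ((trList [n]).length + 1 + (k + 1)) =
        ((row N).cfg n ((trList [n]).length + 1 + k)).bind ((row N).step n) := rfl
    have hi : iterO (sstep tr) ⟨N.s0.1, N.s0.2, Sd (trList [n])⟩ (k + 1) =
        (iterO (sstep tr) ⟨N.s0.1, N.s0.2, Sd (trList [n])⟩ k).bind (sstep tr) := rfl
    rw [hc, ih2, hi]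
    cases hk : iterO (sstep tr) ⟨N.s0.1, N.s0.2, Sd (trList [n])⟩ k with
    | none =>
      refine ⟨?_, rfl⟩
      intro x hx
      simp at hx
    | some y =>
      have hy := ih1 y hk
      have hst : (row N).step n (N.ix (y.q, y.v), cw y.S) =
          (sstep tr y).map (fun x => (N.ix (x.q, x.v), cw x.S)) := by
        show ((row N).nq n (N.ix (y.q, y.v)) (cw y.S 0)).map _ = _
        rw [nq_ctl N n (y.q, y.v) hy, nw_ctl N n (y.q, y.v) hy]
        unfold sstep
        rw [Option.map_map, Option.map_map]
        rfl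
      refine ⟨?_, ?_⟩
      · intro x hx
        simp only [Option.bind_some, sstep, Option.map_eq_some_iff] at hx
        obtain ⟨z, h1, h2⟩ := hx
        have h3 := N.cl _ hy.1 _ z (by rw [hy.2]; exact h1)
        rw [← h2]
        exact h3
      · simp only [Option.map_some, Option.bind_some]
        exact hst

theorem forever (n : ℕ) : (∀ k, ((row N).cfg n k).isSome = true) ↔
    ∀ k, (iterO (sstep tr) ⟨N.s0.1, N.s0.2, Sd (trList [n])⟩ k).isSome = true := by
  constructor
  · intro h k
    have h1 := h ((trList [n]).length + 1 + k)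
    rw [(run N n k).2, Option.isSome_map] at h1
    exact h1
  · intro h k
    by_cases hk : k ≤ (trList [n]).length
    · rw [load N n k hk]
      rfl
    · obtain ⟨i, rfl⟩ : ∃ i, k = (trList [n]).length + 1 + i :=
        ⟨k - ((trList [n]).length + 1), by omega⟩
      rw [(run N n i).2, Option.isSome_map]
      exact h i

/-- the row machine of a universal code -/
theorem sim : ∃ (c : ℕ) (R : RowM (Fin c)), Computable R.q0 ∧ Computable R.bound ∧
    (Computable fun x : ℕ × ℕ × Fin c => R.nq x.1 x.2.1 x.2.2) ∧
    (Computable fun x : ℕ × ℕ × (Option (Fin c) × Fin c × Fin c) =>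
      R.sh x.1 x.2.1 x.2.2.1 x.2.2.2.1 x.2.2.2.2) ∧
    ¬ ComputablePred fun n => ∀ k, (R.cfg n k).isSome = true := by
  obtain ⟨c, hc⟩ := Univ.univ
  obtain ⟨A, hA, h0, hcl⟩ := ctl_code c
  obtain ⟨N, hN⟩ := num_exists _ A hA h0 hcl
  refine ⟨_, row N, q0_c N, bound_c N, nq_c N, sh_c N, fun h => hc ?_⟩
  refine h.not.of_eq fun n => ?_
  rw [forever N n, ← eval_dom_iterO, hN, small_dom]
  rfl

end Pool.Agent.VHM.Sim
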