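import Mathlib

/-!
# VHM/SmallDef : small step version of Mathlib's stack machines (MP_720b7c_al, W3, helper10)

One `Stmt` constructor per step.  `ctl` : next (statement, variable), from the tops of the stacks;
`act` : what happens to the stacks.
-/

set_option autoImplicit false

namespace Pool.Agent.VHM

open Turing

section
variable {K : Type} [DecidableEq K] {Γ : K → Type} {Λ σ : Type}

/-- small configurations: statement still to be executed, variable, stacks -/
structure SC (Γ : K → Type) (Λ σ : Type) where
  q : TM2.Stmt Γ Λ σ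
  v : σ
  S : ∀ k, List (Γ k)

/-- control part of a small step -/
def ctl (M : Λ → TM2.Stmt Γ Λ σ) :
    TM2.Stmt Γ Λ σ → σ → (∀ k, Option (Γ k)) → Option (TM2.Stmt Γ Λ σ × σ)
  | .push _ _ q, v, _ => some (q, v)
  | .peek k f q, v, T => some (q, f v (T k))
  | .pop k f q, v, T => some (q, f v (T k))
  | .load a q, v, _ => some (q, a v)
  | .branch f q₁ q₂, v, _ => some (cond (f v) q₁ q₂, v)
  | .goto f, v, _ => some (M (f v), v)
  | .halt, _, _ => none

/-- action of a small step on the stacks -/
def act : TM2.Stmt Γ Λ σ → σ → (∀ k, List (Γ k)) → (∀ k, List (Γ k))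
  | .push k f _, v, S => Function.update S k (f v :: S k)
  | .peek _ _ _, _, S => S
  | .pop k _ _, _, S => Function.update S k (S k).tail
  | .load _ _, _, S => S
  | .branch _ _ _, _, S => S
  | .goto _, _, S => S
  | .halt, _, S => S

/-- small step -/
def sstep (M : Λ → TM2.Stmt Γ Λ σ) (x : SC Γ Λ σ) : Option (SC Γ Λ σ) :=
  (ctl M x.q x.v (fun k => (x.S k).head?)).map fun y => ⟨y.1, y.2, act x.q x.v x.S⟩

end

/-- iterates of a partial step function -/
def iterO {A : Type} (f : A → Option A) (a : A) : ℕ → Option A
  | 0 => some a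
  | k + 1 => (iterO f a k).bind f

end Pool.Agent.VHM
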